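import Mathlib

/-!
Polynomial matrices: kernels of bounded degree, jets and rank drops.
-/

open Polynomial Matrix Module

namespace Pool.Agent.Lib.PRAR

variable {F : Type*} [Field F] {ρ ι : Type*} [Fintype ρ] [Fintype ι]

/-- vectors of polynomials of degree `< m` -/
noncomputable def Pm (F ι : Type*) [Field F] (m : ℕ) : Submodule F (ι → F[X]) :=
  Submodule.pi Set.univ (fun _ => degreeLT F m)

/-- kernel vectors of degree `< m` -/
def Lam (D : Matrix ρ ι F[X]) (m : ℕ) : Submodule F (ι → F[X]) where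
  carrier := {v | (∀ i, (v i).degree < m) ∧ D *ᵥ v = 0}
  add_mem' := by
    rintro v w ⟨h1, h2⟩ ⟨h3, h4⟩
    refine ⟨fun i => ?_, by rw [mulVec_add, h2, h4, add_zero]⟩
    exact lt_of_le_of_lt (degree_add_le _ _) (max_lt (h1 i) (h3 i))
  zero_mem' := ⟨fun i => by simp, by simp⟩
  smul_mem' := by
    rintro c v ⟨h1, h2⟩
    refine ⟨fun i => lt_of_le_of_lt (degree_smul_le _ _) (h1 i), ?_⟩
    rw [mulVec_smul, h2, smul_zero]

/-- dimension of `Lam D m` -/
noncomputable def dl (D : Matrix ρ ι F[X]) (m : ℕ) : ℕ := finrank F (Lam D m)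

/-- rank of `D` evaluated at `a` -/
noncomputable def rkAt (D : Matrix ρ ι F[X]) (a : F) : ℕ := (D.map (eval a)).rank

/-- maximal rank of an evaluation -/
noncomputable def Rmax [Fintype F] (D : Matrix ρ ι F[X]) : ℕ := Finset.univ.sup (rkAt D)

/-- evaluation of a vector of polynomials -/
noncomputable def evA (ι : Type*) (a : F) : (ι → F[X]) →ₗ[F] (ι → F) :=
  (Polynomial.leval a).compLeft ι

/-- multiplication of a vector of polynomials by a polynomial -/
noncomputable def mulP (ι : Type*) (p : F[X]) : (ι → F[X]) →ₗ[F] (ι → F[X]) :=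
  (LinearMap.mulLeft F p).compLeft ι

omit [Fintype ι] in
theorem evA_apply (a : F) (v : ι → F[X]) (i : ι) : evA ι a v i = (v i).eval a := rfl

omit [Fintype ι] in
theorem mulP_apply (p : F[X]) (v : ι → F[X]) (i : ι) : mulP ι p v i = p * v i := rfl

omit [Fintype ι] in
theorem mem_Pm {m : ℕ} {v : ι → F[X]} : v ∈ Pm F ι m ↔ ∀ i, (v i).degree < m := by
  simp [Pm, Submodule.mem_pi, mem_degreeLT]

omit [Fintype ρ] in
theorem mem_Lam {D : Matrix ρ ι F[X]} {m : ℕ} {v : ι → F[X]} :
    v ∈ Lam D m ↔ (∀ i, (v i).degree < m) ∧ D *ᵥ v = 0 := Iff.rfl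

/-- `Pm` as a product -/
noncomputable def PmEquiv (F ι : Type*) [Field F] (m : ℕ) :
    Pm F ι m ≃ₗ[F] (ι → degreeLT F m) where
  toFun v i := ⟨v.1 i, v.2 i (Set.mem_univ i)⟩
  invFun w := ⟨fun i => (w i).1, fun i _ => (w i).2⟩
  map_add' _ _ := rfl
  map_smul' _ _ := rfl
  left_inv _ := rfl
  right_inv _ := rfl

instance finite_degreeLT (m : ℕ) : Module.Finite F (degreeLT F m) :=
  Module.Finite.equiv (degreeLTEquiv F m).symm

instance finite_Pm (m : ℕ) : Module.Finite F (Pm F ι m) :=
  Module.Finite.equiv (PmEquiv F ι m).symm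

theorem finrank_Pm (m : ℕ) : finrank F (Pm F ι m) = Fintype.card ι * m := by
  rw [(PmEquiv F ι m).finrank_eq, Module.finrank_pi_fintype]
  simp [(degreeLTEquiv F m).finrank_eq]

omit [Fintype ρ] in
theorem Lam_le_Pm (D : Matrix ρ ι F[X]) (m : ℕ) : Lam D m ≤ Pm F ι m :=
  fun _ hv => mem_Pm.2 hv.1

omit [Fintype ρ] in
instance finite_Lam (D : Matrix ρ ι F[X]) (m : ℕ) : Module.Finite F (Lam D m) :=
  Submodule.finiteDimensional_of_le (Lam_le_Pm D m)

omit [Fintype ρ] in
theorem Lam_mono (D : Matrix ρ ι F[X]) {m n : ℕ} (h : m ≤ n) : Lam D m ≤ Lam D n :=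
  fun _ hv => ⟨fun i => lt_of_lt_of_le (hv.1 i) (by exact_mod_cast h), hv.2⟩

theorem finrank_split {M N : Type*} [AddCommGroup M] [Module F M] [AddCommGroup N] [Module F N]
    (S : Submodule F M) [Module.Finite F S] (f : M →ₗ[F] N) :
    finrank F S = finrank F (S.map f) + finrank F (S ⊓ LinearMap.ker f : Submodule F M) := by
  rw [← LinearMap.finrank_range_add_finrank_ker (f.domRestrict S), LinearMap.range_domRestrict,
    LinearMap.ker_domRestrict]
  congr 1
  rw [← Submodule.finrank_map_subtype_eq, Submodule.map_comap_subtype]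

omit [Fintype ι] in
theorem mulP_injective {p : F[X]} (hp : p ≠ 0) : Function.Injective (mulP ι p) := by
  intro v w h
  funext i
  exact mul_left_cancel₀ hp (congrFun h i)

omit [Fintype ρ] in
theorem mem_map_mulP (D : Matrix ρ ι F[X]) {p : F[X]} (hp : p.Monic) (j : ℕ) (v : ι → F[X]) :
    v ∈ (Lam D j).map (mulP ι p) ↔ v ∈ Lam D (j + p.natDegree) ∧ ∀ i, p ∣ v i := by
  have hm : ∀ w : ι → F[X], D *ᵥ (mulP ι p w) = p • (D *ᵥ w) := by
    intro w
    rw [← mulVec_smul]; rfl
  have hd : ∀ w : F[X], (p * w).degree < ((j + p.natDegree : ℕ) : WithBot ℕ) ↔ w.degree < j := by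
    intro w
    rw [mul_comm, hp.degree_mul, degree_eq_natDegree hp.ne_zero, Nat.cast_add]
    exact WithBot.add_lt_add_iff_right (WithBot.natCast_ne_bot _)
  constructor
  · rintro ⟨w, hw, rfl⟩
    refine ⟨⟨fun i => (hd _).2 (hw.1 i), ?_⟩, fun i => Dvd.intro _ rfl⟩
    rw [hm, hw.2, smul_zero]
  · rintro ⟨hv, hdv⟩
    choose w hw using hdv
    have e : mulP ι p w = v := by funext i; rw [mulP_apply, hw]
    refine ⟨w, ⟨fun i => (hd _).1 (hw i ▸ hv.1 i), ?_⟩, e⟩
    have := hv.2
    rw [← e, hm] at this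
    exact (smul_eq_zero.1 this).resolve_left hp.ne_zero

omit [Fintype ρ] in
theorem dl_succ (D : Matrix ρ ι F[X]) (a : F) (j : ℕ) :
    dl D (j + 1) = finrank F ((Lam D (j + 1)).map (evA ι a)) + dl D j := by
  rw [dl, finrank_split _ (evA ι a)]
  congr 1
  have : (Lam D (j + 1) ⊓ LinearMap.ker (evA ι a) : Submodule F (ι → F[X]))
      = (Lam D j).map (mulP ι (X - C a)) := by
    ext v
    rw [mem_map_mulP D (monic_X_sub_C a), natDegree_X_sub_C, Submodule.mem_inf, LinearMap.mem_ker]
    refine and_congr Iff.rfl ?_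
    simp only [dvd_iff_isRoot, IsRoot.def]
    exact funext_iff
  rw [this, dl]
  exact (Submodule.equivMapOfInjective _ (mulP_injective (X_sub_C_ne_zero a)) _).finrank_eq.symm

omit [Fintype ρ] in
theorem eval_mulVec (D : Matrix ρ ι F[X]) (a : F) (v : ι → F[X]) :
    (D.map (eval a)) *ᵥ (evA ι a v) = evA ρ a (D *ᵥ v) := by
  funext r
  exact (RingHom.map_mulVec (evalRingHom a) D v r).symm

omit [Fintype ρ] in
theorem dl_zero (D : Matrix ρ ι F[X]) : dl D 0 = 0 := by
  have h := Submodule.finrank_mono (Lam_le_Pm D 0)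
  rw [finrank_Pm] at h
  simpa [dl] using h

omit [Fintype ρ] in
theorem dl_succ_le (D : Matrix ρ ι F[X]) (a : F) (j : ℕ) :
    dl D (j + 1) + rkAt D a ≤ dl D j + Fintype.card ι := by
  rw [dl_succ D a]
  have h1 : (Lam D (j + 1)).map (evA ι a) ≤ LinearMap.ker (D.map (eval a)).mulVecLin := by
    rintro _ ⟨v, hv, rfl⟩
    rw [LinearMap.mem_ker, mulVecLin_apply, eval_mulVec, hv.2, map_zero]
  have h2 := Submodule.finrank_mono h1
  have h3 := LinearMap.finrank_range_add_finrank_ker (D.map (eval a)).mulVecLin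
  rw [Module.finrank_fintype_fun_eq_card] at h3
  unfold rkAt Matrix.rank
  omega

omit [Fintype ρ] in
theorem dl_inc_mono (D : Matrix ρ ι F[X]) {i j : ℕ} (h : i ≤ j) :
    dl D (i + 1) + dl D j ≤ dl D (j + 1) + dl D i := by
  rw [dl_succ D 0 i, dl_succ D 0 j]
  have := Submodule.finrank_mono
    (Submodule.map_mono (f := evA ι (0 : F)) (Lam_mono D (Nat.add_le_add_right h 1)))
  omega

omit [Fintype ρ] in
theorem dl_codim (D : Matrix ρ ι F[X]) {t : ℕ} (hD : ∀ r i, (D r i).natDegree ≤ t) (m : ℕ)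
    (A : Finset F) (hA : m + t ≤ A.card) :
    Fintype.card ι * m ≤ dl D m + ∑ a ∈ A, rkAt D a := by
  classical
  let f : F → (ι → F[X]) →ₗ[F] (ρ → F) := fun a => (D.map (eval a)).mulVecLin ∘ₗ evA ι a
  have key : ∀ B : Finset F, ∃ S : Submodule F (ι → F[X]), S ≤ Pm F ι m ∧
      (∀ v ∈ S, ∀ a ∈ B, f a v = 0) ∧ Fintype.card ι * m ≤ finrank F S + ∑ a ∈ B, rkAt D a := by
    intro B
    induction B using Finset.induction_on with
    | empty => exact ⟨Pm F ι m, le_rfl, by simp, by simp [finrank_Pm]⟩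
    | insert a B ha ih =>
      obtain ⟨S, h1, h2, h3⟩ := ih
      have : Module.Finite F S := Submodule.finiteDimensional_of_le h1
      refine ⟨S ⊓ LinearMap.ker (f a), inf_le_left.trans h1, ?_, ?_⟩
      · intro v hv b hb
        rcases Finset.mem_insert.1 hb with rfl | hb
        · exact hv.2
        · exact h2 v hv.1 b hb
      · rw [Finset.sum_insert ha]
        have h4 := finrank_split S (f a)
        have h5 : S.map (f a) ≤ LinearMap.range (D.map (eval a)).mulVecLin := by
          rintro _ ⟨v, -, rfl⟩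
          exact ⟨_, rfl⟩
        have : Module.Finite F (LinearMap.range (D.map (eval a)).mulVecLin) :=
          Module.Finite.range _
        have h6 := Submodule.finrank_mono h5
        unfold rkAt Matrix.rank at *
        omega
  obtain ⟨S, h1, h2, h3⟩ := key A
  have h4 : S ≤ Lam D m := by
    intro v hv
    refine ⟨mem_Pm.1 (h1 hv), ?_⟩
    funext r
    apply eq_zero_of_degree_lt_of_eval_finset_eq_zero A
    · have : (D *ᵥ v) r ∈ degreeLT F (m + t) := by
        refine Submodule.sum_mem _ fun i _ => ?_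
        rw [mem_degreeLT]
        refine lt_of_le_of_lt (degree_mul_le _ _) ?_
        have e1 : (D r i).degree ≤ (t : WithBot ℕ) := degree_le_of_natDegree_le (hD r i)
        have e2 := mem_Pm.1 (h1 hv) i
        calc (D r i).degree + (v i).degree ≤ (t : WithBot ℕ) + (v i).degree := by gcongr
          _ < (t : WithBot ℕ) + m := WithBot.add_lt_add_left (WithBot.natCast_ne_bot _) e2
          _ = ((m + t : ℕ) : WithBot ℕ) := by rw [Nat.cast_add, add_comm]
      exact lt_of_lt_of_le (mem_degreeLT.1 this) (by exact_mod_cast hA)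
    · intro a ha
      have := h2 v hv a ha
      simp only [f, LinearMap.comp_apply, mulVecLin_apply, eval_mulVec] at this
      exact congrFun this r
  have h5 := Submodule.finrank_mono h4
  unfold dl
  omega

omit [Fintype ρ] in
theorem rkAt_le_Rmax [Fintype F] (D : Matrix ρ ι F[X]) (a : F) : rkAt D a ≤ Rmax D :=
  Finset.le_sup (f := rkAt D) (Finset.mem_univ a)

omit [Fintype ρ] in
theorem exists_Rmax [Fintype F] (D : Matrix ρ ι F[X]) : ∃ a, rkAt D a = Rmax D := by
  obtain ⟨a, -, h⟩ := Finset.exists_mem_eq_sup Finset.univ Finset.univ_nonempty (rkAt D)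
  exact ⟨a, h.symm⟩

omit [Fintype ρ] in
theorem dl_le [Fintype F] (D : Matrix ρ ι F[X]) (j m : ℕ) :
    dl D (j + m) + m * Rmax D ≤ dl D j + m * Fintype.card ι := by
  obtain ⟨a, ha⟩ := exists_Rmax D
  induction m with
  | zero => simp
  | succ m ih =>
    have := dl_succ_le D a (j + m)
    rw [ha] at this
    rw [← add_assoc, add_mul, add_mul]
    omega

omit [Fintype ρ] in
/-- rank drop -/
theorem drop [Fintype F] (D : Matrix ρ ι F[X]) {t : ℕ} (hD : ∀ r i, (D r i).natDegree ≤ t) :
    (Fintype.card F - t) * Rmax D ≤ ∑ a, rkAt D a := by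
  rcases le_total (Fintype.card F) t with h | h
  · rw [Nat.sub_eq_zero_of_le h]; simp
  · have h1 := dl_codim D hD (Fintype.card F - t) Finset.univ (by rw [Finset.card_univ]; omega)
    have h2 := dl_le D 0 (Fintype.card F - t)
    rw [zero_add, dl_zero, mul_comm _ (Fintype.card ι)] at h2
    omega

omit [Fintype ρ] in
/-- rank drop, summed form -/
theorem drop_sum [Fintype F] (D : Matrix ρ ι F[X]) {t : ℕ} (hD : ∀ r i, (D r i).natDegree ≤ t) :
    ∑ a, (Rmax D - rkAt D a) ≤ t * Rmax D := by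
  have h1 := drop D hD
  have h2 : ∑ a, (Rmax D - rkAt D a) + ∑ a, rkAt D a = Fintype.card F * Rmax D := by
    rw [← Finset.sum_add_distrib,
      Finset.sum_congr rfl (fun a _ => Nat.sub_add_cancel (rkAt_le_Rmax D a))]
    simp
  have h3 : Fintype.card F * Rmax D ≤ (Fintype.card F - t) * Rmax D + t * Rmax D := by
    rw [← add_mul]; exact Nat.mul_le_mul_right _ (by omega)
  omega

omit [Fintype ρ] in
/-- the jets of length `L` of kernel vectors of degree `< j + L` have small codimension -/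
theorem jet_codim [Fintype F] (D : Matrix ρ ι F[X]) {t : ℕ} (hD : ∀ r i, (D r i).natDegree ≤ t)
    (j L : ℕ) (hq : j + 1 + t ≤ Fintype.card F) :
    (j + 1) * (L * Fintype.card ι + dl D j) ≤
      (j + 1) * dl D (j + L) + L * ((j + 1 + t) * Rmax D) := by
  obtain ⟨A, -, hA⟩ := Finset.exists_subset_card_eq (s := (Finset.univ : Finset F))
    (n := j + 1 + t) (by rwa [Finset.card_univ])
  have h1 := dl_codim D hD (j + 1) A hA.ge
  have h2 : ∑ a ∈ A, rkAt D a ≤ (j + 1 + t) * Rmax D := by
    rw [← hA, ← smul_eq_mul]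
    exact Finset.sum_le_card_nsmul _ _ _ fun a _ => rkAt_le_Rmax D a
  obtain ⟨b, hb⟩ : ∃ b, dl D (j + 1) = dl D j + b := by
    have := dl_succ D 0 j
    exact ⟨_, by rw [this, add_comm]⟩
  have h3 : ∀ i, i ≤ j + 1 → dl D i ≤ i * b := by
    intro i hi
    induction i with
    | zero => simp [dl_zero]
    | succ i ih =>
      have := dl_inc_mono D (Nat.le_of_succ_le_succ hi)
      have := ih (by omega)
      rw [add_mul]; omega
  have h4 : ∀ l, dl D j + l * b ≤ dl D (j + l) := by
    intro l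
    induction l with
    | zero => simp
    | succ l ih =>
      have := dl_inc_mono D (Nat.le_add_right j l)
      rw [← add_assoc, add_mul]; omega
  have h5 := h3 (j + 1) le_rfl
  have h6 : Fintype.card ι * (j + 1) ≤ (j + 1) * b + (j + 1 + t) * Rmax D := by omega
  have h7 := Nat.mul_le_mul_left L h6
  have h8 := Nat.mul_le_mul_left (j + 1) (h4 L)
  nlinarith

omit [Fintype ρ] in
theorem card_Lam [Fintype F] (D : Matrix ρ ι F[X]) (m : ℕ) :
    Nat.card (Lam D m) = Fintype.card F ^ dl D m := by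
  rw [Module.natCard_eq_pow_finrank (K := F), Nat.card_eq_fintype_card, dl]

omit [Fintype ρ] in
instance finite_Lam' [Finite F] (D : Matrix ρ ι F[X]) (m : ℕ) : Finite (Lam D m) :=
  Module.finite_of_finite F

omit [Fintype ρ] in
/-- fibres of reduction modulo a monic polynomial -/
theorem card_fibre [Fintype F] (D : Matrix ρ ι F[X]) {p : F[X]} (hp : p.Monic) (j : ℕ)
    (w : ι → F[X]) :
    Nat.card {v : Lam D (j + p.natDegree) // ∀ i, p ∣ v.1 i - w i} ≤ Fintype.card F ^ dl D j := by
  rw [← card_Lam]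
  rcases isEmpty_or_nonempty {v : Lam D (j + p.natDegree) // ∀ i, p ∣ v.1 i - w i} with h | ⟨⟨v0⟩⟩
  · simp
  · have hh : ∀ v : {v : Lam D (j + p.natDegree) // ∀ i, p ∣ v.1 i - w i},
        ∃ u : Lam D j, mulP ι p u.1 = v.1.1 - v0.1.1 := by
      intro v
      obtain ⟨u, hu, e⟩ := (mem_map_mulP D hp j (v.1.1 - v0.1.1)).2
        ⟨Submodule.sub_mem _ v.1.2 v0.1.2, fun i => by
          have := dvd_sub (v.2 i) (v0.2 i)
          rwa [sub_sub_sub_cancel_right] at this⟩
      exact ⟨⟨u, hu⟩, e⟩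
    choose u hu using hh
    refine Nat.card_le_card_of_injective u fun v v' h => ?_
    have := hu v
    rw [h, hu v'] at this
    exact Subtype.ext (Subtype.ext (sub_left_injective this).symm)

omit [Fintype ρ] in
theorem rkAt_taylor (D : Matrix ρ ι F[X]) (a b : F) :
    rkAt (D.map (taylor a)) b = rkAt D (b + a) := by
  unfold rkAt
  congr 1
  ext r i
  simp [taylor_eval]

omit [Fintype ρ] in
theorem Rmax_taylor [Fintype F] (D : Matrix ρ ι F[X]) (a : F) :
    Rmax (D.map (taylor a)) = Rmax D := by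
  apply le_antisymm
  · exact Finset.sup_le fun b _ => by rw [rkAt_taylor]; exact rkAt_le_Rmax D _
  · refine Finset.sup_le fun b _ => ?_
    have := rkAt_le_Rmax (D.map (taylor a)) (b - a)
    rwa [rkAt_taylor, sub_add_cancel] at this

omit [Fintype ρ] in
theorem taylor_mem_Lam (D : Matrix ρ ι F[X]) (a : F) (m : ℕ) (v : ι → F[X]) :
    (fun i => taylor a (v i)) ∈ Lam (D.map (taylor a)) m ↔ v ∈ Lam D m := by
  have h : (D.map (taylor a)) *ᵥ (fun i => taylor a (v i)) = fun r => taylor a ((D *ᵥ v) r) := by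
    funext r
    exact (RingHom.map_mulVec (taylorAlgHom a).toRingHom D v r).symm
  simp only [mem_Lam, degree_taylor, h]
  refine and_congr Iff.rfl ⟨fun h' => ?_, fun h' => ?_⟩
  · funext r
    exact taylor_injective a (by simpa using congrFun h' r)
  · funext r
    simp [h']

omit [Fintype ρ] in
theorem dl_taylor (D : Matrix ρ ι F[X]) (a : F) (m : ℕ) : dl (D.map (taylor a)) m = dl D m := by
  have key : ∀ (D : Matrix ρ ι F[X]) (a : F), dl D m ≤ dl (D.map (taylor a)) m := by
    intro D a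
    let f : Lam D m →ₗ[F] Lam (D.map (taylor a)) m :=
      LinearMap.codRestrict _ (((taylor a).compLeft ι) ∘ₗ (Lam D m).subtype)
        (fun v => (taylor_mem_Lam D a m v.1).2 v.2)
    refine LinearMap.finrank_le_finrank_of_injective (f := f) fun v w h => ?_
    refine Subtype.ext (funext fun i => taylor_injective a ?_)
    exact congrFun (congrArg Subtype.val h) i
  refine le_antisymm ?_ (key D a)
  have := key (D.map (taylor a)) (-a)
  have e : (D.map (taylor a)).map (taylor (-a)) = D := by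
    ext r i
    simp [taylor_taylor]
  rwa [e] at this

end Pool.Agent.Lib.PRAR
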